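import Pool.Agent.helper20.FX.Spec

set_option autoImplicit false

namespace Pool.Agent.FXM

open Finset

theorem MAI_a (X ε C1 w : ℝ) (i : ℕ) (hX : 1 ≤ X) (hε : 0 < ε) (hC : 0 < C1)
    (h1 : w ≤ (2 : ℝ) ^ i) (h2 : w ≤ C1 * X ^ (ε / 2) * (X / (2 : ℝ) ^ i) ^ (2 / 3 : ℝ)) :
    w ≤ (1 + C1) * X ^ (2 / 5 + ε / 2) := by
  have hX0 : 0 < X := by linarith
  have hp : 0 < X ^ (2 / 5 + ε / 2) := Real.rpow_pos_of_pos hX0 _
  by_cases h : (2 : ℝ) ^ i ≤ X ^ (2 / 5 : ℝ)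
  · have h3 : X ^ (2 / 5 : ℝ) ≤ X ^ (2 / 5 + ε / 2) :=
      Real.rpow_le_rpow_of_exponent_le hX (by linarith)
    have h4 : 0 ≤ C1 * X ^ (2 / 5 + ε / 2) := by positivity
    linarith
  · push Not at h
    have hq : 0 < X ^ (2 / 5 : ℝ) := Real.rpow_pos_of_pos hX0 _
    have h3 : X / (2 : ℝ) ^ i ≤ X ^ (3 / 5 : ℝ) := by
      rw [div_le_iff₀ (by positivity)]
      have : X = X ^ (3 / 5 : ℝ) * X ^ (2 / 5 : ℝ) := by
        rw [← Real.rpow_add hX0]; norm_num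
      calc X = X ^ (3 / 5 : ℝ) * X ^ (2 / 5 : ℝ) := this
        _ ≤ X ^ (3 / 5 : ℝ) * (2 : ℝ) ^ i :=
          mul_le_mul_of_nonneg_left h.le (Real.rpow_nonneg hX0.le _)
    have h4 : (X / (2 : ℝ) ^ i) ^ (2 / 3 : ℝ) ≤ X ^ (2 / 5 : ℝ) := by
      calc (X / (2 : ℝ) ^ i) ^ (2 / 3 : ℝ) ≤ (X ^ (3 / 5 : ℝ)) ^ (2 / 3 : ℝ) :=
            Real.rpow_le_rpow (by positivity) h3 (by norm_num)
        _ = X ^ (2 / 5 : ℝ) := by rw [← Real.rpow_mul hX0.le]; norm_num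
    calc w ≤ C1 * X ^ (ε / 2) * (X / (2 : ℝ) ^ i) ^ (2 / 3 : ℝ) := h2
      _ ≤ C1 * X ^ (ε / 2) * X ^ (2 / 5 : ℝ) :=
        mul_le_mul_of_nonneg_left h4 (by positivity)
      _ = C1 * X ^ (2 / 5 + ε / 2) := by
        rw [Real.rpow_add hX0]; ring
      _ ≤ (1 + C1) * X ^ (2 / 5 + ε / 2) := by
        have : (1 + C1) * X ^ (2 / 5 + ε / 2) = X ^ (2 / 5 + ε / 2) + C1 * X ^ (2 / 5 + ε / 2) := by
          ring
        linarith

theorem MAI_b (X ε C1 w : ℝ) (i : ℕ) (hX : 1 ≤ X) (hC : 0 < C1)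
    (hi : (2 : ℝ) ^ i ≤ √X) (h2 : w ≤ C1 * X ^ (ε / 2) * (X / (2 : ℝ) ^ i) ^ (2 / 3 : ℝ)) :
    2 * (2 : ℝ) ^ i * w ≤ 2 * C1 * X ^ (5 / 6 + ε / 2) := by
  have hX0 : 0 < X := by linarith
  set y : ℝ := (2 : ℝ) ^ i with hy
  have hy0 : 0 < y := by positivity
  have h3 : y * (X / y) ^ (2 / 3 : ℝ) = X ^ (2 / 3 : ℝ) * y ^ (1 / 3 : ℝ) := by
    rw [Real.div_rpow hX0.le hy0.le]
    have : y = y ^ (1 / 3 : ℝ) * y ^ (2 / 3 : ℝ) := by
      rw [← Real.rpow_add hy0]; norm_num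
    have hp : 0 < y ^ (2 / 3 : ℝ) := Real.rpow_pos_of_pos hy0 _
    field_simp
    rw [mul_comm]
    exact this
  have h4 : y ^ (1 / 3 : ℝ) ≤ X ^ (1 / 6 : ℝ) := by
    calc y ^ (1 / 3 : ℝ) ≤ (√X) ^ (1 / 3 : ℝ) := Real.rpow_le_rpow hy0.le hi (by norm_num)
      _ = X ^ (1 / 6 : ℝ) := by
        rw [Real.sqrt_eq_rpow, ← Real.rpow_mul hX0.le]; norm_num
  calc 2 * y * w ≤ 2 * y * (C1 * X ^ (ε / 2) * (X / y) ^ (2 / 3 : ℝ)) :=
        mul_le_mul_of_nonneg_left h2 (by positivity)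
    _ = 2 * C1 * X ^ (ε / 2) * (y * (X / y) ^ (2 / 3 : ℝ)) := by ring
    _ = 2 * C1 * X ^ (ε / 2) * X ^ (2 / 3 : ℝ) * y ^ (1 / 3 : ℝ) := by rw [h3]; ring
    _ ≤ 2 * C1 * X ^ (ε / 2) * X ^ (2 / 3 : ℝ) * X ^ (1 / 6 : ℝ) :=
      mul_le_mul_of_nonneg_left h4 (by positivity)
    _ = 2 * C1 * X ^ (5 / 6 + ε / 2) := by
      have : (5 / 6 + ε / 2 : ℝ) = ε / 2 + 2 / 3 + 1 / 6 := by ring
      rw [this, Real.rpow_add hX0, Real.rpow_add hX0]; ring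

theorem MAI (hB : BLK_stmt) (hG : GLG_stmt) (hR : REL_stmt) : MAI_stmt := by
  intro ε hε
  obtain ⟨C1, hC1, hB1⟩ := hB (ε / 2) (by linarith)
  obtain ⟨C2, hC2, hG2⟩ := hG (ε / 2) (by linarith)
  refine ⟨C2 * (1 + 2 * C1 + C1), by positivity, ?_⟩
  intro k M hk h3
  rcases Nat.eq_zero_or_pos M with hM | hM
  · subst hM
    have : SS k 0 = ∅ := by simp [SS]
    have hX : XX k 0 = 0 := by simp [XX]
    rw [this, hX]
    constructor
    · simp only [card_empty, Nat.cast_zero]; positivity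
    · simp only [sum_empty]; positivity
  set X : ℝ := XX k M with hXd
  have hlog : (1 : ℝ) ≤ Real.logb 2 k := by
    rw [Real.le_logb_iff_rpow_le (by norm_num) (by positivity), Real.rpow_one]
    exact_mod_cast (by omega : 2 ≤ k)
  have hM1 : (1 : ℝ) ≤ M := by exact_mod_cast hM
  have hX : 1 ≤ X := by
    rw [hXd, XX]
    nlinarith
  have hX0 : 0 < X := by linarith
  have hsq : 1 ≤ √X := Real.one_le_sqrt.2 hX
  have hmem : ∀ n ∈ SS k M, 1 ≤ n ∧ (n : ℝ) < √X := by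
    intro n hn
    simp only [SS, mem_filter, mem_Icc] at hn
    obtain ⟨⟨h1, h2⟩, hd⟩ := hn
    have := (hR k M n hk h3 h1 hd).2.2.2
    exact ⟨h1, Real.lt_sqrt_of_sq_lt this⟩
  have hlsq : 0 ≤ Real.logb 2 (√X) := Real.logb_nonneg (by norm_num) hsq
  set I : ℕ := ⌊Real.logb 2 (√X)⌋₊ + 1 with hI
  have hIlt : ∀ i < I, (2 : ℝ) ^ i ≤ √X := by
    intro i hi
    have h1 : i ≤ ⌊Real.logb 2 (√X)⌋₊ := by omega
    have h2 : (i : ℝ) ≤ Real.logb 2 (√X) := by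
      rwa [Nat.le_floor_iff hlsq] at h1
    rw [Real.le_logb_iff_rpow_le (by norm_num) (by positivity), Real.rpow_natCast] at h2
    exact h2
  have hmap : ∀ n ∈ SS k M, Nat.log 2 n ∈ range I := by
    intro n hn
    obtain ⟨h1, h2⟩ := hmem n hn
    have h4 : 2 ^ Nat.log 2 n ≤ n := Nat.pow_log_le_self 2 (by omega)
    have h5 : (2 : ℝ) ^ Nat.log 2 n ≤ √X := by
      have : ((2 ^ Nat.log 2 n : ℕ) : ℝ) ≤ n := by exact_mod_cast h4
      push_cast at this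
      linarith
    rw [mem_range, hI, Nat.lt_succ_iff, Nat.le_floor_iff hlsq,
      Real.le_logb_iff_rpow_le (by norm_num) (by positivity), Real.rpow_natCast]
    exact h5
  have hIb : (I : ℝ) ≤ C2 * X ^ (ε / 2) := by
    have h1 : ((⌊Real.logb 2 (√X)⌋₊ : ℕ) : ℝ) ≤ Real.logb 2 (√X) := Nat.floor_le hlsq
    have h2 : Real.logb 2 (√X) ≤ Real.logb 2 X := by
      apply Real.logb_le_logb_of_le (by norm_num) (by positivity)
      rw [Real.sqrt_le_left (by linarith)]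
      nlinarith
    have := hG2 X hX
    rw [hI]; push_cast; linarith
  set F : ℕ → Finset ℕ := fun i => (SS k M).filter (fun n => Nat.log 2 n = i) with hF
  have hF1 : ∀ i, ∀ n ∈ F i, 2 ^ i ≤ n ∧ n < 2 * 2 ^ i := by
    intro i n hn
    simp only [hF, mem_filter] at hn
    obtain ⟨hn, rfl⟩ := hn
    have h1 := (hmem n hn).1
    refine ⟨Nat.pow_log_le_self 2 (by omega), ?_⟩
    have := Nat.lt_pow_succ_log_self (b := 2) (by norm_num) n
    rw [pow_succ] at this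
    omega
  have hFW : ∀ i, F i ⊆ (SS k M).filter (fun n => 2 ^ i ≤ n ∧ n < 2 * 2 ^ i) := by
    intro i n hn
    rw [mem_filter]
    refine ⟨?_, hF1 i n hn⟩
    simp only [hF, mem_filter] at hn
    exact hn.1
  have hFc1 : ∀ i, ((F i).card : ℝ) ≤ (2 : ℝ) ^ i := by
    intro i
    have h1 : F i ⊆ Ico (2 ^ i) (2 * 2 ^ i) := by
      intro n hn
      rw [mem_Ico]; exact hF1 i n hn
    have h2 := card_le_card h1
    rw [Nat.card_Ico] at h2
    have h5 : (F i).card ≤ 2 ^ i := by omega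
    have : (((F i).card : ℕ) : ℝ) ≤ ((2 ^ i : ℕ) : ℝ) := by exact_mod_cast h5
    simpa using this
  have hFc2 : ∀ i, ((F i).card : ℝ) ≤ C1 * X ^ (ε / 2) * (X / (2 : ℝ) ^ i) ^ (2 / 3 : ℝ) := by
    intro i
    have h1 := hB1 k M (2 ^ i) hk h3 Nat.one_le_two_pow
    have h2 : (((F i).card : ℕ) : ℝ) ≤
        (((SS k M).filter (fun n => 2 ^ i ≤ n ∧ n < 2 * 2 ^ i)).card : ℝ) := by
      exact_mod_cast card_le_card (hFW i)
    push_cast at h1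
    exact h2.trans h1
  have hCa : 1 + C1 ≤ 1 + 2 * C1 + C1 := by linarith
  have hCb : 2 * C1 ≤ 1 + 2 * C1 + C1 := by linarith
  have hfin : ∀ (e D : ℝ), 0 ≤ D → D ≤ 1 + 2 * C1 + C1 → (I : ℝ) * (D * X ^ (e + ε / 2)) ≤
      C2 * (1 + 2 * C1 + C1) * X ^ (e + ε) := by
    intro e D hD0 hD
    have hsplit : X ^ (e + ε) = X ^ (ε / 2) * X ^ (e + ε / 2) := by
      rw [← Real.rpow_add hX0]; ring_nf
    have hp : 0 < X ^ (e + ε / 2) := Real.rpow_pos_of_pos hX0 _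
    calc (I : ℝ) * (D * X ^ (e + ε / 2)) ≤
          (C2 * X ^ (ε / 2)) * ((1 + 2 * C1 + C1) * X ^ (e + ε / 2)) :=
          mul_le_mul hIb (mul_le_mul_of_nonneg_right hD hp.le) (by positivity) (by positivity)
      _ = C2 * (1 + 2 * C1 + C1) * X ^ (e + ε) := by rw [hsplit]; ring
  constructor
  · have h1 : ((SS k M).card : ℝ) = ∑ i ∈ range I, ((F i).card : ℝ) := by
      rw [card_eq_sum_card_fiberwise hmap]
      push_cast; rfl
    rw [h1]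
    calc ∑ i ∈ range I, ((F i).card : ℝ) ≤ ∑ i ∈ range I, (1 + C1) * X ^ (2 / 5 + ε / 2) :=
          sum_le_sum (fun i _ => MAI_a X ε C1 _ i hX hε hC1 (hFc1 i) (hFc2 i))
      _ = (I : ℝ) * ((1 + C1) * X ^ (2 / 5 + ε / 2)) := by
        rw [sum_const, card_range, nsmul_eq_mul]
      _ ≤ _ := hfin (2 / 5) (1 + C1) (by positivity) hCa
  · have h1 : ∑ n ∈ SS k M, (n : ℝ) = ∑ i ∈ range I, ∑ n ∈ F i, (n : ℝ) :=
      (sum_fiberwise_of_maps_to hmap (fun n => (n : ℝ))).symm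
    rw [h1]
    calc ∑ i ∈ range I, ∑ n ∈ F i, (n : ℝ) ≤
          ∑ i ∈ range I, 2 * C1 * X ^ (5 / 6 + ε / 2) := by
          apply sum_le_sum
          intro i hi
          have h2 : ∑ n ∈ F i, (n : ℝ) ≤ ∑ n ∈ F i, 2 * (2 : ℝ) ^ i := by
            apply sum_le_sum
            intro n hn
            have := (hF1 i n hn).2
            have : (n : ℝ) ≤ ((2 * 2 ^ i : ℕ) : ℝ) := by exact_mod_cast this.le
            simpa using this
          rw [sum_const, nsmul_eq_mul] at h2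
          have h4 := MAI_b X ε C1 _ i hX hC1 (hIlt i (mem_range.1 hi)) (hFc2 i)
          calc ∑ n ∈ F i, (n : ℝ) ≤ ((F i).card : ℝ) * (2 * (2 : ℝ) ^ i) := h2
            _ = 2 * (2 : ℝ) ^ i * ((F i).card : ℝ) := by ring
            _ ≤ _ := h4
      _ = (I : ℝ) * (2 * C1 * X ^ (5 / 6 + ε / 2)) := by
        rw [sum_const, card_range, nsmul_eq_mul]
      _ ≤ _ := hfin (5 / 6) (2 * C1) (by positivity) hCb

end Pool.Agent.FXM
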